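import Pool.Agent.H925R3.RR.Stubs
import Pool.Agent.H437R2.Man.MWCan

/-!
Task HCAN of project RR (helper73): heights of the multiples of a point of infinite order.
-/

set_option autoImplicit false

namespace Pool.Agent.H73R2.RRH

open Pool.Agent.H925R3.DC Pool.Agent.H925R3.DD Pool.Agent.H925R3.RR

theorem ht_nonneg (q : ℚ) : 0 ≤ ht q := by
  unfold ht
  apply Real.log_nonneg
  have h1 : (1 : ℤ) ≤ (q.den : ℤ) := by exact_mod_cast q.pos
  have h2 : (1 : ℤ) ≤ max |q.num| (q.den : ℤ) := h1.trans (le_max_right _ _)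
  exact_mod_cast h2

theorem ht_fin (C : ℝ) : {q : ℚ | ht q ≤ C}.Finite := by
  have hfin : ((Set.Icc (-(⌈Real.exp C⌉₊ : ℤ)) (⌈Real.exp C⌉₊ : ℤ)) ×ˢ
      (Set.Icc 0 ⌈Real.exp C⌉₊)).Finite := (Set.finite_Icc _ _).prod (Set.finite_Icc _ _)
  refine Set.Finite.of_injOn (f := fun q : ℚ => (q.num, q.den)) ?_ ?_ hfin
  · intro q hq
    have hq' : ht q ≤ C := hq
    unfold ht at hq'
    have h1 : (1 : ℤ) ≤ (q.den : ℤ) := by exact_mod_cast q.pos
    have h2 : (1 : ℤ) ≤ max |q.num| (q.den : ℤ) := h1.trans (le_max_right _ _)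
    have h3 : (0 : ℝ) < ((max |q.num| (q.den : ℤ) : ℤ) : ℝ) := by
      have : (0 : ℤ) < max |q.num| (q.den : ℤ) := by omega
      exact_mod_cast this
    have h4 : ((max |q.num| (q.den : ℤ) : ℤ) : ℝ) ≤ Real.exp C :=
      (Real.log_le_iff_le_exp h3).1 hq'
    have h5 : ((max |q.num| (q.den : ℤ) : ℤ) : ℝ) ≤ ((⌈Real.exp C⌉₊ : ℤ) : ℝ) := by
      refine h4.trans ?_
      have := Nat.le_ceil (Real.exp C)
      exact_mod_cast this
    have h6 : max |q.num| (q.den : ℤ) ≤ (⌈Real.exp C⌉₊ : ℤ) := by exact_mod_cast h5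
    have h7 := (le_max_left |q.num| (q.den : ℤ)).trans h6
    have h8 := (le_max_right |q.num| (q.den : ℤ)).trans h6
    refine ⟨abs_le.1 h7, Nat.zero_le _, ?_⟩
    exact_mod_cast h8
  · intro q _ r _ h
    have h1 : q.num = r.num := congrArg Prod.fst h
    have h2 : q.den = r.den := congrArg Prod.snd h
    exact Rat.ext h1 h2

theorem hcan : Pool.Agent.H925R3.RR.HCAN := by
  intro a b hU hD hE P hP
  obtain ⟨C1, hU⟩ := hU
  obtain ⟨C2, hD⟩ := hD
  have h0 : ∀ Q : (crv ℚ (a : ℚ) (b : ℚ)).Point, 0 ≤ htp Q := by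
    intro Q
    unfold htp
    split_ifs
    · exact le_refl _
    · exact ht_nonneg _
  have hpar : ∀ Q R : (crv ℚ (a : ℚ) (b : ℚ)).Point,
      |htp (Q + R) + htp (Q - R) - 2 * (htp Q + htp R)| ≤ |C1| + |C2| := by
    intro Q R
    have h1 := hU Q R
    have h2 := hU (Q + R) (Q - R)
    have h3 := hD Q
    have h4 := hD R
    have e1 : (Q + R) + (Q - R) = Q + Q := by abel
    have e2 : (Q + R) - (Q - R) = R + R := by abel
    rw [e1, e2] at h2
    have h5 := le_abs_self C1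
    have h6 := le_abs_self C2
    have h7 := abs_nonneg C1
    have h8 := abs_nonneg C2
    rw [abs_le]
    constructor <;> linarith
  obtain ⟨q, C', hq1, hq2, hq3⟩ :=
    Pool.Agent.H437R2.Man.MW.canon (fun Q : (crv ℚ (a : ℚ) (b : ℚ)).Point => htp Q)
      (|C1| + |C2|) h0 hpar
  have hq0 : q 0 = 0 := by
    have := hq3 0 0
    rw [add_zero, sub_zero] at this
    linarith
  have hqn : ∀ n : ℕ, q (n • P) = (n : ℝ) ^ 2 * q P ∧
      q ((n + 1) • P) = ((n : ℝ) + 1) ^ 2 * q P := by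
    intro n
    induction n with
    | zero => simp [hq0]
    | succ n ih =>
      obtain ⟨h1, h2⟩ := ih
      refine ⟨by push_cast; exact h2, ?_⟩
      have h3 := hq3 ((n + 1) • P) P
      have e1 : (n + 1) • P + P = (n + 1 + 1) • P := by
        rw [add_smul (n + 1) 1 P, one_smul]
      have e2 : (n + 1) • P - P = n • P := by
        rw [add_smul, one_smul, add_sub_cancel_right]
      rw [e1, e2, h1, h2] at h3
      push_cast
      linarith
  have hht : ∀ n : ℕ, 1 ≤ n → ht (xc (n • P)) = htp (n • P) := by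
    intro n hn
    unfold htp
    rw [if_neg (hP n hn)]
  have hmain : ∀ n : ℕ, 1 ≤ n → |ht (xc (n • P)) - q P * (n : ℝ) ^ 2| ≤ C' := by
    intro n hn
    rw [hht n hn]
    have h1 := hq1 (n • P)
    rw [(hqn n).1] at h1
    rw [abs_sub_comm, mul_comm (q P)]
    exact h1
  refine ⟨q P, C', ?_, hmain⟩
  rcases lt_or_eq_of_le (hq2 P) with h | h
  · exact h
  exfalso
  have hle : ∀ n : ℕ, xc ((n + 1) • P) ∈ {r : ℚ | ht r ≤ C'} := by
    intro n
    have h1 := hmain (n + 1) (by omega)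
    rw [← h, zero_mul, sub_zero] at h1
    exact (le_abs_self _).trans h1
  have hfin := ht_fin C'
  obtain ⟨m, n, hmn, heq⟩ : ∃ m n : ℕ, m < n ∧ xc ((m + 1) • P) = xc ((n + 1) • P) := by
    have : Finite {r : ℚ | ht r ≤ C'} := hfin.to_subtype
    obtain ⟨m, n, hne, he⟩ := Finite.exists_ne_map_eq_of_infinite
      (fun n : ℕ => (⟨xc ((n + 1) • P), hle n⟩ : {r : ℚ | ht r ≤ C'}))
    have he' : xc ((m + 1) • P) = xc ((n + 1) • P) := congrArg Subtype.val he
    rcases Nat.lt_or_gt_of_ne hne with h1 | h1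
    · exact ⟨m, n, h1, he'⟩
    · exact ⟨n, m, h1, he'.symm⟩
  have h1 := (hE ℚ (a : ℚ) (b : ℚ) ((m + 1) • P) ((n + 1) • P)).2.1 (hP _ (by omega))
    (hP _ (by omega)) heq
  rcases h1 with h1 | h1
  · apply hP (n - m) (by omega)
    have h2 : (n + 1) • P = (m + 1) • P + (n - m) • P := by
      rw [← add_smul]
      congr 1
      omega
    rw [← h1] at h2
    have h3 : (m + 1) • P + 0 = (m + 1) • P + (n - m) • P := by rw [add_zero]; exact h2
    exact (add_left_cancel h3).symm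
  · apply hP ((m + 1) + (n + 1)) (by omega)
    rw [add_smul, h1, neg_add_cancel]

end Pool.Agent.H73R2.RRH

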